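import Pool.Agent.H17.KU.Val

/-!
# Sharp bounds on the means of `k`th records from symmetric unimodal parents

For every `k, n ≥ 1` the constant

  `D^{su}(k,n) = sup { (E_F R^{(k)}_n - μ_F) / σ_F : F symmetric and unimodal }`

is determined.

Write `f` for the density of the `n`th `k`th record of a uniform parent, `s(x) = f(x) - f(1-x)`, and for
`k ≥ 2` put

* `q = (k/(k+1))^(n+1)`, so that `∫_{1/2}^1 (x - 1/2) s(x) dx = 1/2 - q`,
* `S = 2^(1-k) ∑_{j ≤ n} (k log 2)^j / j!`, so that `∫_{1/2}^1 s(x) dx = S - 1`,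
* `Φ(b) = ∫_b^1 (x-b) s(x) dx - (2/3) (1-b) ∫_b^1 s(x) dx + (1/6) (1-b)^2 s(b)`,
* `λ(b) = 2 (∫_b^1 s(x) dx - (1-b) s(b)) / (1-b)^2`.

**Theorem.**

* `k = 1`: `2 D^2 = binom(2n,n) - (n!)^(-2) ∫_0^1 (log x)^n (log (1-x))^n dx`, and `D` is attained; so
  `D^{su}(1,n) = D^{s}(1,n)`.
* `k ≥ 2`, `q ≥ 1/2`: `D = 0`.
* `k ≥ 2`, `q < 1/2` and `5/2 - 3q ≤ S`: `D = √3 (1 - 2q)`, attained by the uniform law.
* `k ≥ 2`, `q < 1/2` and `S < 5/2 - 3q`: `Φ` is positive at `1/2` and has a least zero `b` in `(1/2,1)`,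

  `2 D^2 = ∫_{1/2}^b s(x)^2 dx + (1-b) (s(b)^2 + (1-b) s(b) λ(b) + (1-b)^2 λ(b)^2 / 3)`,

  and `D` is attained (by the law with quantile function `s` on `[1/2, b]` and the affine function
  `s(b) + λ(b) (u - b)` on `[b, 1)`).

Proof. For `F` in the class, `g = F⁻¹ - μ` is convex on `[1/2, 1)` with `g(1/2) = 0`, and
`(E R - μ)/σ = ∫ g s / (2 ∫ g^2)^(1/2)`, the integrals being over `(1/2, 1)`. The main point is the
shape of `s` in the case `q < 1/2`: it is convex on `[1/2, x_i]`, concave on `[x_i, z]`, strictly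
increasing on `[1/2, z]`, and its nonnegative values decrease strictly after `z`. So `s` minus a line of
nonnegative slope through a point `(b, s(b))` with `b ≤ x_i` is positive exactly on an interval to the
right of `b`; as this difference is orthogonal to affine functions for the right choice of the slope and
of `b`, comparison of `g` with a chord shows `∫ g s ≤ ∫ g g_0` for the convex function `g_0` which is
`s` before `b` and the line after `b`, and the Cauchy-Schwarz inequality finishes the proof. The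
convexity claim rests on the inequality `(k/(k+1))^(n+1) < 1/2`, which enters through estimates of the
logarithmic derivative of the ratio of the two terms of `s''`.
-/

set_option autoImplicit false

open MeasureTheory ProbabilityTheory Set

namespace Pool.Agent.Results.MP_d11fee_pr.SymmetricUnimodal

noncomputable section

/-- Density on `(0,1)` of the `n`th `k`th record value of a uniform parent. -/
def dens (k n : ℕ) (x : ℝ) : ℝ :=
  (k : ℝ) ^ (n + 1) / (n.factorial : ℝ) * (-Real.log (1 - x)) ^ n * (1 - x) ^ (k - 1)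

/-- Quantile function `F⁻¹` of the law `ν`. -/
def quant (ν : Measure ℝ) (u : ℝ) : ℝ := sInf {x : ℝ | u ≤ cdf ν x}

/-- Mean of the law `ν`. -/
def mean (ν : Measure ℝ) : ℝ := ∫ x, x ∂ν

/-- Variance of the law `ν`. -/
def var (ν : Measure ℝ) : ℝ := ∫ x, (x - mean ν) ^ 2 ∂ν

/-- Mean of the `n`th `k`th record value from the parent law `ν`. -/
def recMean (k n : ℕ) (ν : Measure ℝ) : ℝ := ∫ u in (0 : ℝ)..1, quant ν u * dens k n u

/-- The class `𝒮𝒰`: continuous distribution function, finite positive variance, symmetry about the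
mean, and a density that is nondecreasing to the left of the mean and nonincreasing to the right of
it. -/
structure SU (ν : Measure ℝ) : Prop where
  prob : IsProbabilityMeasure ν
  cont : Continuous (cdf ν)
  sq : Integrable (fun x => x ^ 2) ν
  var_pos : 0 < var ν
  symm : ∀ t, cdf ν (mean ν + t) + cdf ν (mean ν - t) = 1
  unimodal : ∃ p : ℝ → ℝ, Measurable p ∧ (∀ x, 0 ≤ p x) ∧
    ν = volume.withDensity (fun x => ENNReal.ofReal (p x)) ∧
    MonotoneOn p (Iio (mean ν)) ∧ AntitoneOn p (Ioi (mean ν))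

/-- The numbers `(E_F R - μ_F) / σ_F`, `F ∈ 𝒮𝒰`; its supremum is `D^{su}(k,n)`. -/
def ratios (k n : ℕ) : Set ℝ :=
  {r | ∃ ν : Measure ℝ, SU ν ∧ r = (recMean k n ν - mean ν) / √(var ν)}

/-- `s(x) = f(x) - f(1-x)`. -/
def s (k n : ℕ) (x : ℝ) : ℝ := dens k n x - dens k n (1 - x)

/-- `q = (k/(k+1))^(n+1)`. -/
def q (k n : ℕ) : ℝ := ((k : ℝ) / (k + 1)) ^ (n + 1)

/-- `S = 2^(1-k) ∑_{j ≤ n} (k log 2)^j / j!`. -/
def S (k n : ℕ) : ℝ :=
  (∑ j ∈ Finset.range (n + 1), ((k : ℝ) * Real.log 2) ^ j / (j.factorial : ℝ)) / 2 ^ (k - 1)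

/-- The function `Φ`, whose least zero is the breaking point `b`. -/
def Phi (k n : ℕ) (b : ℝ) : ℝ :=
  (∫ x in b..1, (x - b) * s k n x) - 2 / 3 * (1 - b) * (∫ x in b..1, s k n x) +
    (1 - b) ^ 2 / 6 * s k n b

/-- The slope `λ(b)`. -/
def slope (k n : ℕ) (b : ℝ) : ℝ :=
  2 * ((∫ x in b..1, s k n x) - (1 - b) * s k n b) / (1 - b) ^ 2

end

lemma ratios_eq (k n : ℕ) : ratios k n = Pool.Agent.H17.KU.uratios k n := by
  ext r
  constructor
  · rintro ⟨ν, h, hr⟩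
    exact ⟨ν, ⟨⟨h.prob, h.cont, h.sq, h.var_pos, h.symm⟩, h.unimodal⟩, hr⟩
  · rintro ⟨ν, h, hr⟩
    exact ⟨ν, ⟨h.prob, h.cont, h.sq, h.var_pos, h.symm, h.unimodal⟩, hr⟩

/-- **The sharp constants `D^{su}(k,n)` for all `k, n ≥ 1`.** -/
theorem result (k n : ℕ) (hk : 1 ≤ k) (hn : 1 ≤ n) :
    (k = 1 → IsGreatest (ratios k n) (√((((2 * n).choose n : ℝ) -
      (∫ x in (0 : ℝ)..1, Real.log x ^ n * Real.log (1 - x) ^ n) / (n.factorial : ℝ) ^ 2) / 2))) ∧
    (2 ≤ k → 1 / 2 ≤ q k n → IsLUB (ratios k n) 0) ∧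
    (2 ≤ k → q k n < 1 / 2 → 5 / 2 - 3 * q k n ≤ S k n →
      IsGreatest (ratios k n) (√3 * (1 - 2 * q k n))) ∧
    (2 ≤ k → q k n < 1 / 2 → S k n < 5 / 2 - 3 * q k n →
      ∃ b : ℝ, 1 / 2 < b ∧ b < 1 ∧ Phi k n b = 0 ∧ (∀ x, 1 / 2 ≤ x → x < b → 0 < Phi k n x) ∧
        IsGreatest (ratios k n) (√(((∫ x in (1 / 2)..b, s k n x ^ 2) +
          (1 - b) * (s k n b ^ 2 + (1 - b) * (s k n b * slope k n b) +
            (1 - b) ^ 2 * slope k n b ^ 2 / 3)) / 2))) := by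
  obtain ⟨N, rfl⟩ : ∃ N, n = N + 1 := ⟨n - 1, by omega⟩
  rw [ratios_eq]
  have hq : ∀ M : ℕ, q (M + 2) (N + 1) = (((M : ℝ) + 2) / (M + 3)) ^ (N + 2) := by
    intro M
    unfold q
    push_cast
    rw [show (M : ℝ) + 2 + 1 = M + 3 by ring]
  have hPhi : ∀ M : ℕ, Pool.Agent.H17.KU.Phi (V11309.KRec.sfun (M + 2) (N + 1)) (1 / 2) =
      (5 / 2 - 3 * q (M + 2) (N + 1) - S (M + 2) (N + 1)) / 3 := by
    intro M
    rw [Pool.Agent.H17.KU.Phi_half, hq]
    rfl
  refine ⟨?_, ?_, ?_, ?_⟩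
  · rintro rfl
    rw [← Pool.Agent.H17.KU.sq_value]
    exact Pool.Agent.H17.KU.case_one N
  · intro h2 hz
    obtain ⟨M, rfl⟩ : ∃ M, k = M + 2 := ⟨k - 2, by omega⟩
    rw [hq] at hz
    exact Pool.Agent.H17.KU.case_Z N M hz
  · intro h2 hz hS
    obtain ⟨M, rfl⟩ : ∃ M, k = M + 2 := ⟨k - 2, by omega⟩
    have h3 : Pool.Agent.H17.KU.Phi (V11309.KRec.sfun (M + 2) (N + 1)) (1 / 2) ≤ 0 := by
      rw [hPhi]
      linarith
    rw [hq] at hz ⊢
    exact Pool.Agent.H17.KU.case_L N M hz h3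
  · intro h2 hz hS
    obtain ⟨M, rfl⟩ : ∃ M, k = M + 2 := ⟨k - 2, by omega⟩
    have h3 : 0 < Pool.Agent.H17.KU.Phi (V11309.KRec.sfun (M + 2) (N + 1)) (1 / 2) := by
      rw [hPhi]
      linarith
    rw [hq] at hz
    obtain ⟨b, b1, b2, b3, b4, b5⟩ := Pool.Agent.H17.KU.case_N N M hz h3
    refine ⟨b, b1, b2, b3, b4, ?_⟩
    rw [Pool.Agent.H17.KU.int_lin3] at b5
    have e : ((∫ x in (1 / 2)..b, s (M + 2) (N + 1) x ^ 2) +
          (1 - b) * (s (M + 2) (N + 1) b ^ 2 +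
            (1 - b) * (s (M + 2) (N + 1) b * slope (M + 2) (N + 1) b) +
            (1 - b) ^ 2 * slope (M + 2) (N + 1) b ^ 2 / 3)) / 2 =
        ((∫ x in (1 / 2)..b, V11309.KRec.sfun (M + 2) (N + 1) x ^ 2) +
          (V11309.KRec.sfun (M + 2) (N + 1) b ^ 2 * (1 - b) +
            V11309.KRec.sfun (M + 2) (N + 1) b *
              Pool.Agent.H17.KU.lam (V11309.KRec.sfun (M + 2) (N + 1)) b * (1 - b) ^ 2 +
            Pool.Agent.H17.KU.lam (V11309.KRec.sfun (M + 2) (N + 1)) b ^ 2 * (1 - b) ^ 3 / 3)) / 2 := by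
      have e1 : s (M + 2) (N + 1) = V11309.KRec.sfun (M + 2) (N + 1) := rfl
      have e2 : slope (M + 2) (N + 1) b =
          Pool.Agent.H17.KU.lam (V11309.KRec.sfun (M + 2) (N + 1)) b := rfl
      rw [e1, e2]
      ring
    rw [e]
    exact b5

end Pool.Agent.Results.MP_d11fee_pr.SymmetricUnimodal
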